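import Pool.Agent.Helper69.KC.Base
import Pool.Agent.Helper57.KC.B1

/-!
Packet B2 of MP_ec852d_co: averaging over the copies.
-/

set_option autoImplicit false

namespace Pool.Agent.Helper69.KC

open MGraph

/-- The statement of packet B1 (`parity_rep`). -/
def ParityRep : Prop :=
  ∀ {V E : Type} (pos : V → ℂ) (_ : Function.Injective pos)
    (s t : E → V) (_ : ∀ e, s e ≠ t e) (arc : E → ℝ → ℂ)
    (_ : ∀ e, ContinuousOn (arc e) (Set.Icc 0 1))
    (_ : ∀ e, arc e 0 = pos (s e)) (_ : ∀ e, arc e 1 = pos (t e))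
    (_ : ∀ e, ∀ r ∈ Set.Icc (0 : ℝ) 1, ∀ v, v ≠ s e → v ≠ t e → arc e r ≠ pos v),
    ∃ (k : E → V → ZMod 2) (b : V → V → ZMod 2),
      (∀ u v, u ≠ v → b u v + b v u = 1) ∧
      ∀ g h, s g ≠ s h → s g ≠ t h → t g ≠ s h → t g ≠ t h →
        (∀ r ∈ Set.Icc (0 : ℝ) 1, ∀ r' ∈ Set.Icc (0 : ℝ) 1, arc g r ≠ arc h r') →
        k g (s h) + k g (t h) + k h (s g) + k h (t g) +
          (b (s h) (t g) + b (t h) (t g) + b (s h) (s g) + b (t h) (s g)) = 0

/-- Every arc of a drawing can be run through in the direction of our choice. -/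
theorem exists_oriented {V E : Type} {G : MGraph V E} (D : G.Drawing) (e : E) (u v : V)
    (h : G.ends e = s(u, v)) :
    ∃ γ : ℝ → ℂ, ContinuousOn γ (Set.Icc 0 1) ∧ γ 0 = D.pos u ∧ γ 1 = D.pos v ∧
      (∀ t ∈ Set.Ioo (0 : ℝ) 1, ∃ t' ∈ Set.Ioo (0 : ℝ) 1, D.arc e t' = γ t) := by
  obtain ⟨u', v', h', h0, h1⟩ := D.arc_ends e
  rw [h, Sym2.eq_iff] at h'
  rcases h' with ⟨rfl, rfl⟩ | ⟨rfl, rfl⟩
  · exact ⟨D.arc e, D.arc_continuousOn e, h0, h1, fun t ht => ⟨t, ht, rfl⟩⟩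
  · refine ⟨fun r => D.arc e (1 - r), ?_, by simpa using h1, by simpa using h0, ?_⟩
    · refine (D.arc_continuousOn e).comp (by fun_prop) ?_
      intro x hx
      simp only [Set.mem_Icc] at hx ⊢
      constructor <;> linarith [hx.1, hx.2]
    · intro t ht
      refine ⟨1 - t, ?_, rfl⟩
      simp only [Set.mem_Ioo] at ht ⊢
      constructor <;> linarith [ht.1, ht.2]

/-- Averaging over one coordinate. -/
theorem sum_update {ι : Type} [Fintype ι] [DecidableEq ι] (m : ι → ℕ) (g : ι)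
    (F : ((k : ι) → Fin (m k)) → ℕ) :
    ∑ c : (k : ι) → Fin (m k), ∑ i : Fin (m g), F (Function.update c g i) =
      ∑ c : (k : ι) → Fin (m k), m g * F c := by
  have h1 : ∑ c : (k : ι) → Fin (m k), ∑ i : Fin (m g), F (Function.update c g i) =
      ∑ p : ((k : ι) → Fin (m k)) × Fin (m g), F (Function.update p.1 g p.2) := by
    rw [← Finset.univ_product_univ, Finset.sum_product]
  have h2 : ∑ c : (k : ι) → Fin (m k), m g * F c =
      ∑ p : ((k : ι) → Fin (m k)) × Fin (m g), F p.1 := by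
    rw [← Finset.univ_product_univ, Finset.sum_product]
    simp
  rw [h1, h2]
  refine Finset.sum_bij' (fun p _ => (Function.update p.1 g p.2, p.1 g))
    (fun p _ => (Function.update p.1 g p.2, p.1 g)) ?_ ?_ ?_ ?_ ?_
  · intro p _; simp
  · intro p _; simp
  · intro p _; simp
  · intro p _; simp
  · intro p _; simp

/-- Averaging over two coordinates. -/
theorem sum_two {ι : Type} [Fintype ι] [DecidableEq ι] (m : ι → ℕ) (g h : ι) (hgh : g ≠ h)
    (F : Fin (m g) → Fin (m h) → ℕ) :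
    ∑ c : (k : ι) → Fin (m k), m g * m h * F (c g) (c h) =
      (∏ k, m k) * ∑ i, ∑ j, F i j := by
  have h1 : ∑ c : (k : ι) → Fin (m k), m g * m h * F (c g) (c h) =
      m h * ∑ c : (k : ι) → Fin (m k), m g * F (c g) (c h) := by
    rw [Finset.mul_sum]
    refine Finset.sum_congr rfl fun c _ => by ring
  rw [h1, ← sum_update m g (fun c => F (c g) (c h))]
  have h2 : ∀ (c : (k : ι) → Fin (m k)) (i : Fin (m g)),
      F (Function.update c g i g) (Function.update c g i h) = F i (c h) := by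
    intro c i
    rw [Function.update_self, Function.update_of_ne hgh.symm]
  simp only [h2]
  rw [Finset.mul_sum]
  rw [← sum_update m h (fun c => ∑ i, F i (c h))]
  have h3 : ∀ (c : (k : ι) → Fin (m k)) (j : Fin (m h)),
      ∑ i, F i (Function.update c h j h) = ∑ i, F i j := by
    intro c j
    rw [Function.update_self]
  simp only [h3]
  rw [Finset.sum_const, Finset.card_univ, Fintype.card_pi, smul_eq_mul]
  simp only [Fintype.card_fin]
  rw [Finset.sum_comm]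

/-- The set of pairs of copies of independent edges (the edge `17` excluded) which cross. -/
def XP (m : Fin 20 → ℕ) (i : Fin (m 17)) (D : ((G0.multiply m).delete ⟨17, i⟩).Drawing)
    (p q : Σ g : Fin 20, Fin (m g)) : Prop :=
  (p.1 < q.1 ∧ p.1 ≠ 17 ∧ q.1 ≠ 17) ∧
    ∃ (hp : p ≠ ⟨17, i⟩) (hq : q ≠ ⟨17, i⟩), ∃ t ∈ Set.Ioo (0 : ℝ) 1, ∃ t' ∈ Set.Ioo (0 : ℝ) 1,
      D.arc ⟨p, hp⟩ t = D.arc ⟨q, hq⟩ t'

open Classical in
theorem card_le_crossings (m : Fin 20 → ℕ) (i : Fin (m 17))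
    (D : ((G0.multiply m).delete ⟨17, i⟩).Drawing) :
    (((Finset.univ : Finset ((Σ g : Fin 20, Fin (m g)) × (Σ g : Fin 20, Fin (m g)))).filter
      (fun pq => XP m i D pq.1 pq.2)).card : ℕ∞) ≤ D.crossings.encard := by
  set T := (Finset.univ : Finset ((Σ g : Fin 20, Fin (m g)) × (Σ g : Fin 20, Fin (m g)))).filter
      (fun pq => XP m i D pq.1 pq.2) with hT
  have hmem : ∀ pq ∈ T, XP m i D pq.1 pq.2 := by
    intro pq h
    rw [hT, Finset.mem_filter] at h
    exact h.2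
  -- the injection
  have key : ∀ pq : {pq // pq ∈ T}, ∃ x : Sym2 {x : (Σ g : Fin 20, Fin (m g)) // x ≠ ⟨17, i⟩} × ℂ,
      x ∈ D.crossings ∧ ∃ (hp : pq.1.1 ≠ ⟨17, i⟩) (hq : pq.1.2 ≠ ⟨17, i⟩),
        x.1 = s(⟨pq.1.1, hp⟩, ⟨pq.1.2, hq⟩) := by
    rintro ⟨⟨p, q⟩, h⟩
    obtain ⟨⟨h1, h2, h3⟩, hp, hq, t, ht, t', ht', he⟩ := hmem _ h
    refine ⟨(s(⟨p, hp⟩, ⟨q, hq⟩), D.arc ⟨p, hp⟩ t), ⟨?_, ?_⟩, hp, hq, rfl⟩
    · simp only [Sym2.mk_isDiag_iff]
      intro hc
      rw [Subtype.mk.injEq] at hc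
      simp only at h1
      rw [hc] at h1
      exact lt_irrefl _ h1
    · intro e he'
      simp only [Sym2.mem_iff] at he'
      rcases he' with rfl | rfl
      · exact ⟨t, ht, rfl⟩
      · exact ⟨t', ht', he.symm⟩
  choose f hf hf' using key
  have hinj : Function.Injective f := by
    rintro ⟨⟨p, q⟩, h⟩ ⟨⟨p', q'⟩, h'⟩ heq
    obtain ⟨hp, hq, e1⟩ := hf' ⟨(p, q), h⟩
    obtain ⟨hp', hq', e2⟩ := hf' ⟨(p', q'), h'⟩
    have h1 := (hmem _ h).1.1
    have h1' := (hmem _ h').1.1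
    rw [heq, e2, Sym2.eq_iff] at e1
    simp only at h1 h1'
    rcases e1 with ⟨e3, e4⟩ | ⟨e3, e4⟩
    · rw [Subtype.mk.injEq] at e3 e4
      simp only at e3 e4
      subst e3; subst e4
      rfl
    · rw [Subtype.mk.injEq] at e3 e4
      simp only at e3 e4
      rw [e3, e4] at h1'
      exact absurd h1 (not_lt.2 h1'.le)
  have h1 : ((Set.univ : Set {pq // pq ∈ T}).encard) ≤ D.crossings.encard := by
    rw [← hinj.injOn.encard_image (s := Set.univ)]
    refine Set.encard_le_encard ?_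
    rintro _ ⟨x, -, rfl⟩
    exact hf x
  refine le_trans (le_of_eq ?_) h1
  rw [Set.encard_univ, ENat.card_eq_coe_fintype_card, Fintype.card_coe]

theorem lower_of_parity_of (B1 : ParityRep) (m : Fin 20 → ℕ) (hm : ∀ g, 1 ≤ m g)
    (i : Fin (m 17)) (N : ℕ)
    (h : ∀ (k : Fin 20 → Fin 12 → ZMod 2) (b : Fin 12 → Fin 12 → ZMod 2),
      (∀ u v, u ≠ v → b u v + b v u = 1) → N ≤ wsum m k b) :
    (N : ℕ∞) ≤ ((G0.multiply m).delete ⟨17, i⟩).cr := by
  classical
  refine le_iInf fun D => ?_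
  refine le_trans ?_ (card_le_crossings m i D)
  rw [Nat.cast_le]
  -- step (ii)
  have hii : ∀ c : (g : Fin 20) → Fin (m g),
      N ≤ ∑ g : Fin 20, ∑ h : Fin 20,
        m g * m h * (if XP m i D ⟨g, c g⟩ ⟨h, c h⟩ then 1 else 0) := by
    intro c
    -- oriented arcs
    have hne : ∀ g : {g : Fin 20 // g ≠ 17},
        (⟨g.1, c g.1⟩ : Σ g : Fin 20, Fin (m g)) ≠ ⟨17, i⟩ := by
      intro g hc
      exact g.2 (congrArg Sigma.fst hc)
    have hor : ∀ g : {g : Fin 20 // g ≠ 17}, ∃ γ : ℝ → ℂ, ContinuousOn γ (Set.Icc 0 1) ∧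
        γ 0 = D.pos (src g.1) ∧ γ 1 = D.pos (tgt g.1) ∧
        (∀ t ∈ Set.Ioo (0 : ℝ) 1, ∃ t' ∈ Set.Ioo (0 : ℝ) 1,
          D.arc ⟨⟨g.1, c g.1⟩, hne g⟩ t' = γ t) := by
      intro g
      exact exists_oriented D ⟨⟨g.1, c g.1⟩, hne g⟩ (src g.1) (tgt g.1) rfl
    choose γ hγc hγ0 hγ1 hγi using hor
    have hav : ∀ e : {g : Fin 20 // g ≠ 17}, ∀ r ∈ Set.Icc (0 : ℝ) 1, ∀ v, v ≠ src e.1 →
        v ≠ tgt e.1 → γ e r ≠ D.pos v := by
      intro e r hr v hv1 hv2 hc
      rcases eq_or_lt_of_le hr.1 with h0 | h0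
      · rw [← h0, hγ0] at hc
        exact hv1 (D.pos_injective hc).symm
      · rcases eq_or_lt_of_le hr.2 with h1 | h1
        · rw [h1, hγ1] at hc
          exact hv2 (D.pos_injective hc).symm
        · obtain ⟨t', ht', he⟩ := hγi e r ⟨h0, h1⟩
          rw [← he] at hc
          exact D.arc_avoids _ t' ht' v hc
    have hst : ∀ g : Fin 20, src g ≠ tgt g := by decide
    obtain ⟨k', b, hb, hk⟩ := B1 D.pos D.pos_injective
      (fun e : {g : Fin 20 // g ≠ 17} => src e.1) (fun e => tgt e.1)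
      (fun e => hst e.1) γ hγc hγ0 hγ1 hav
    refine le_trans (h (fun g v => if hg : g ≠ 17 then k' ⟨g, hg⟩ v else 0) b hb) ?_
    unfold wsum
    refine Finset.sum_le_sum fun g _ => Finset.sum_le_sum fun h' _ => ?_
    split_ifs with h1 h2 h2
    · simp
    · exfalso
      apply h2
      obtain ⟨hlt, hind, hg17, hh17, hom⟩ := h1
      obtain ⟨i1, i2, i3, i4⟩ := hind
      refine ⟨⟨hlt, hg17, hh17⟩, hne ⟨g, hg17⟩, hne ⟨h', hh17⟩, ?_⟩
      by_contra hcon
      have hdis : ∀ r ∈ Set.Icc (0 : ℝ) 1, ∀ r' ∈ Set.Icc (0 : ℝ) 1,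
          γ ⟨g, hg17⟩ r ≠ γ ⟨h', hh17⟩ r' := by
        intro r hr r' hr' heq
        apply hcon
        -- the common point is interior
        have hr0 : r ∈ Set.Ioo (0 : ℝ) 1 := by
          refine ⟨lt_of_le_of_ne hr.1 ?_, lt_of_le_of_ne hr.2 ?_⟩
          · intro hz
            rw [← hz, hγ0] at heq
            exact hav ⟨h', hh17⟩ r' hr' (src g) i1 i2 heq.symm
          · intro hz
            rw [hz, hγ1] at heq
            exact hav ⟨h', hh17⟩ r' hr' (tgt g) i3 i4 heq.symm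
        have hr0' : r' ∈ Set.Ioo (0 : ℝ) 1 := by
          refine ⟨lt_of_le_of_ne hr'.1 ?_, lt_of_le_of_ne hr'.2 ?_⟩
          · intro hz
            rw [← hz, hγ0] at heq
            exact hav ⟨g, hg17⟩ r hr (src h') i1.symm i3.symm heq
          · intro hz
            rw [hz, hγ1] at heq
            exact hav ⟨g, hg17⟩ r hr (tgt h') i2.symm i4.symm heq
        obtain ⟨t, ht, he⟩ := hγi ⟨g, hg17⟩ r hr0
        obtain ⟨t', ht', he'⟩ := hγi ⟨h', hh17⟩ r' hr0'
        exact ⟨t, ht, t', ht', by rw [he, he', heq]⟩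
      have h0 := hk ⟨g, hg17⟩ ⟨h', hh17⟩ i1 i2 i3 i4 hdis
      unfold omega at hom
      simp only [hg17, hh17, ne_eq, not_false_eq_true, dite_true] at hom h0
      rw [h0] at hom
      exact absurd hom (by decide)
    · exact Nat.zero_le _
    · exact Nat.zero_le _
  -- step (iii)
  have hprod : 0 < ∏ k, m k := Finset.prod_pos fun g _ => hm g
  have hsum : (∏ k, m k) * N ≤ ∑ c : (g : Fin 20) → Fin (m g), ∑ g : Fin 20, ∑ h : Fin 20,
        m g * m h * (if XP m i D ⟨g, c g⟩ ⟨h, c h⟩ then 1 else 0) := by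
    have : (∏ k, m k) * N = ∑ c : (g : Fin 20) → Fin (m g), N := by
      rw [Finset.sum_const, Finset.card_univ, Fintype.card_pi, smul_eq_mul]
      simp only [Fintype.card_fin]
    rw [this]
    exact Finset.sum_le_sum fun c _ => hii c
  have hcomm : ∑ c : (g : Fin 20) → Fin (m g), ∑ g : Fin 20, ∑ h : Fin 20,
        m g * m h * (if XP m i D ⟨g, c g⟩ ⟨h, c h⟩ then 1 else 0) =
      (∏ k, m k) * ∑ g : Fin 20, ∑ h : Fin 20, ∑ i' : Fin (m g), ∑ j : Fin (m h),
        (if XP m i D ⟨g, i'⟩ ⟨h, j⟩ then 1 else 0) := by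
    rw [Finset.sum_comm, Finset.mul_sum]
    refine Finset.sum_congr rfl fun g _ => ?_
    rw [Finset.sum_comm, Finset.mul_sum]
    refine Finset.sum_congr rfl fun h' _ => ?_
    by_cases hgh : g = h'
    · subst hgh
      have hX : ∀ a b : Fin (m g), ¬ XP m i D ⟨g, a⟩ ⟨g, b⟩ := by
        intro a b hX
        exact lt_irrefl _ hX.1.1
      simp [hX]
    · exact sum_two m g h' hgh (fun i' j => if XP m i D ⟨g, i'⟩ ⟨h', j⟩ then 1 else 0)
  rw [hcomm] at hsum
  have hfin := Nat.le_of_mul_le_mul_left hsum hprod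
  refine le_trans hfin (le_of_eq ?_)
  rw [Finset.card_filter, ← Finset.univ_product_univ, Finset.sum_product,
    Fintype.sum_sigma]
  refine Finset.sum_congr rfl fun g _ => ?_
  rw [Finset.sum_comm]
  refine Finset.sum_congr rfl fun i' _ => ?_
  rw [Fintype.sum_sigma]

theorem lower_of_parity (m : Fin 20 → ℕ) (hm : ∀ g, 1 ≤ m g) (i : Fin (m 17)) (N : ℕ)
    (h : ∀ (k : Fin 20 → Fin 12 → ZMod 2) (b : Fin 12 → Fin 12 → ZMod 2),
      (∀ u v, u ≠ v → b u v + b v u = 1) → N ≤ wsum m k b) :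
    (N : ℕ∞) ≤ ((G0.multiply m).delete ⟨17, i⟩).cr :=
  lower_of_parity_of parity_rep m hm i N h

end Pool.Agent.Helper69.KC
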