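import Mathlib

/-!
# Project KC (MP_eaa1a7_co): cylinders touching a ball — definitions

The least `j` of the question is at most `3`: if `k` `j`-cylinders are admissible for some `j`, then so
are `k` `3`-cylinders.
-/

set_option autoImplicit false

open Module

namespace Pool.Agent.Helper80.KC

/-- Euclidean space -/
abbrev E (n : ℕ) := EuclideanSpace ℝ (Fin n)

/-- `C` is a `j`-cylinder in `ℝ^(3+j)`: the set of points at distance `≤ 1` from some `j`-dimensional
affine subspace (its axis) -/
def IsCylinder (j : ℕ) (C : Set (E (3 + j))) : Prop :=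
  ∃ L : AffineSubspace ℝ (E (3 + j)), (L : Set (E (3 + j))).Nonempty ∧
    finrank ℝ L.direction = j ∧ C = {x | Metric.infDist x (L : Set (E (3 + j))) ≤ 1}

/-- the body `C` touches the closed unit ball: it meets the ball and the interiors are disjoint -/
def Touches {n : ℕ} (C : Set (E n)) : Prop :=
  (C ∩ Metric.closedBall 0 1).Nonempty ∧
    Disjoint (interior C) (interior (Metric.closedBall (0 : E n) 1))

/-- there is an admissible family of `k` `j`-cylinders in `ℝ^(3+j)`: each member touches the closed
unit ball, and the members have pairwise disjoint interiors -/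
def Admissible (k j : ℕ) : Prop :=
  ∃ C : Fin k → Set (E (3 + j)),
    (∀ i, IsCylinder j (C i) ∧ Touches (C i)) ∧
    ∀ i i', i ≠ i' → Disjoint (interior (C i)) (interior (C i'))

/-- the same in terms of the axes: at distance `2` from the origin, pairwise at distance `≥ 2` -/
def Adm (k j : ℕ) : Prop :=
  ∃ L : Fin k → AffineSubspace ℝ (E (3 + j)),
    (∀ i, (L i : Set (E (3 + j))).Nonempty ∧ finrank ℝ (L i).direction = j ∧
      Metric.infDist 0 (L i : Set (E (3 + j))) = 2) ∧
    ∀ i i', i ≠ i' → ∀ x ∈ L i, ∀ y ∈ L i', 2 ≤ dist x y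

section

variable (k : ℕ) (V : Type) [NormedAddCommGroup V] [InnerProductSpace ℝ V]

/-- configurations: `N i` is the orthogonal complement of the direction of the `i`-th axis, `2 p_i` its
point closest to the origin, and `f i j` a unit vector in `N i ∩ N j` which separates the two axes -/
structure IsConf (N : Fin k → Submodule ℝ V) (p : Fin k → V) (f : Fin k → Fin k → V) : Prop where
  dim : ∀ i, finrank ℝ (N i) = 3
  pm : ∀ i, p i ∈ N i
  pn : ∀ i, ‖p i‖ = 1
  fl : ∀ i j, i ≠ j → f i j ∈ N i
  fr : ∀ i j, i ≠ j → f i j ∈ N j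
  fn : ∀ i j, i ≠ j → ‖f i j‖ = 1
  sep : ∀ i j, i ≠ j → 1 ≤ |inner ℝ (p i - p j) (f i j)|

/-- there is a configuration in `V` -/
def Cf : Prop := ∃ (N : Fin k → Submodule ℝ V) (p : Fin k → V) (f : Fin k → Fin k → V),
  IsConf k V N p f

end

end Pool.Agent.Helper80.KC
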