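import Pool.Agent.Helper80.KC.Defs

/-!
# Project KC (MP_eaa1a7_co), goals

Every goal is a `Prop`; complete proofs are in the doc-strings.  A packet may use the other goals as
hypotheses `(h : G_XX)` as indicated.  All inner product spaces are real.
-/

set_option autoImplicit false

open Module

namespace Pool.Agent.Helper80.KC

/-- **BOD** (bodies and axes).

Proof.  Let `L` be a nonempty affine subspace with direction `U`, `C = {x | infDist x L ≤ 1}`.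
For `z` let `q = EuclideanGeometry.orthogonalProjection L z` (or build it from `U.orthogonalProjection`):
`q ∈ L`, `z - q ⟂ U`, `infDist z L = ‖z - q‖`.
(1) `interior C = {x | infDist x L < 1}`: `⊇` as the right side is open; if `infDist z L = 1` then the
points `z + ε (z - q)` have distance `1 + ε` from `L` (same foot `q`), so `z` is not in the interior.
(2) `infDist 0 L = 2 ↔ Touches C`: if `q` is the foot of `0`, `‖q‖ = infDist 0 L =: d`.  `C ∩ B` is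
nonempty iff `d ≤ 2` (if `d ≤ 2` take `q/2`, at distance `d/2 ≤ 1` from `0` and from `q`; if
`z ∈ C ∩ B` then `d ≤ ‖z‖ + infDist z L ≤ 2`).  The interiors are disjoint iff `d ≥ 2` (if `d < 2` then
`q/2` is in both; if `z` is in both then `d ≤ ‖z‖ + infDist z L < 2`).
(3) interiors of `C, C'` are disjoint iff `2 ≤ dist x y` for all `x ∈ L`, `y ∈ L'`: if `dist x y < 2`
then the midpoint is in both interiors; if `z` is in both, there are `x ∈ L`, `y ∈ L'` with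
`dist z x < 1`, `dist z y < 1`. -/
def G_BOD : Prop := ∀ k j : ℕ, Admissible k j ↔ Adm k j

/-- **A2C** (from axes to configurations).

Proof.  `U i = (L i).direction`, `N i = (U i)ᗮ`, of dimension `3 + j - j = 3`.  Let `q i` be the foot of
`0` on `L i` (`q i ∈ L i`, `q i ∈ N i`, `‖q i‖ = infDist 0 (L i) = 2`), `p i = (1/2) q i`.
For `i ≠ j`: let `g` be the orthogonal projection of `q i - q j` on `N i ⊓ N j = (U i ⊔ U j)ᗮ`.  Then
`q i - q j - g ∈ U i ⊔ U j` (`Submodule.sub_starProjection_mem_orthogonal`, `Kᗮᗮ = K`), so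
`g = (q i + a) - (q j + b)` with `a ∈ U i`, `b ∈ U j` and `2 ≤ ‖g‖`.  `f i j = g / ‖g‖`;
`⟪q i - q j, g⟫ = ‖g‖²`, so `⟪p i - p j, f i j⟫ = ‖g‖ / 2 ≥ 1`. -/
def G_A2C : Prop := ∀ k j : ℕ, Adm k j → Cf k (E (3 + j))

/-- **C2A** (from configurations to axes).

Proof.  `L i = 2 p_i + (N i)ᗮ` (`AffineSubspace.mk'`), nonempty, its direction `(N i)ᗮ` has dimension
`3 + j - 3 = j`.  For `x = 2 p_i + u` (`u ⟂ N i ∋ p_i`): `‖x‖² = 4 + ‖u‖² ≥ 4` with equality for `u = 0`,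
so `infDist 0 (L i) = 2`.  For `x ∈ L i`, `y ∈ L j`: `⟪x - y, f i j⟫ = 2 ⟪p i - p j, f i j⟫`, of absolute
value `≥ 2`, and `|⟪x - y, f i j⟫| ≤ ‖x - y‖`. -/
def G_C2A : Prop := ∀ k j : ℕ, Cf k (E (3 + j)) → Adm k j

/-- **EMB** (a configuration can be moved by a linear isometry).
Proof.  `N i ↦ (N i).map T`, `p i ↦ T (p i)`, `f i j ↦ T (f i j)`. -/
def G_EMB : Prop := ∀ (k : ℕ) (V W : Type) [NormedAddCommGroup V] [InnerProductSpace ℝ V]
  [NormedAddCommGroup W] [InnerProductSpace ℝ W], (V →ₗᵢ[ℝ] W) → Cf k V → Cf k W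

/-- **LOW** (small dimension).
Proof.  If `dim V ≤ m` there is a linear isometry `V → ℝ^m` (`stdOrthonormalBasis` and the inclusion of
coordinates); use `G_EMB`. -/
def G_LOW : Prop := ∀ (k m : ℕ) (V : Type) [NormedAddCommGroup V] [InnerProductSpace ℝ V]
  [FiniteDimensional ℝ V], finrank ℝ V ≤ m → Cf k V → Cf k (E m)

/-- **ISO** (simultaneous isometries).

Proof.  Choose an orthonormal basis `e_1, …, e_r` of `X` (`r = dim X ≤ 6`) and let `ι : X → ℝ⁶` be the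
linear isometry with `ι e_i` the `i`-th standard basis vector; more simply: `ι` is any linear isometry
`X → ℝ⁶` (it exists since `dim X ≤ 6`; if no `Y` is in the range, i.e. the statement is only needed if
`dim X ≤ 6`, take `T Y = 0` otherwise).  For `Y ≥ X` with `dim Y ≤ 6` let `Z = Y ⊓ Xᗮ`,
`dim Z = dim Y - dim X ≤ 6 - dim X = dim (range ι)ᗮ`, let `φ : Z → (range ι)ᗮ` be a linear isometry, and
`T Y v = ι (P_X v) + φ (P_Z v)` (`P` = orthogonal projections).  For `y ∈ Y`: `y - P_X y ∈ Z`, so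
`y = P_X y + P_Z y` and `‖T Y y‖² = ‖P_X y‖² + ‖P_Z y‖² = ‖y‖²` (Pythagoras).  For `x ∈ X`:
`T Y x = ι x`, independent of `Y`. -/
def G_ISO : Prop := ∀ (V : Type) [NormedAddCommGroup V] [InnerProductSpace ℝ V]
  [FiniteDimensional ℝ V] (X : Submodule ℝ V),
  ∃ T : Submodule ℝ V → V →ₗ[ℝ] E 6,
    (∀ Y, X ≤ Y → finrank ℝ Y ≤ 6 → ∀ y ∈ Y, ‖T Y y‖ = ‖y‖) ∧
    ∀ Y Y', X ≤ Y → X ≤ Y' → finrank ℝ Y ≤ 6 → finrank ℝ Y' ≤ 6 → ∀ x ∈ X, T Y x = T Y' x

/-- **FOLD** (re-gluing along `X`; uses `G_ISO`).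

Proof.  `N' i = (N i).map (T (Y i))`, `p' i = T (Y i) (p i)`, `f' i j = T (Y i) (f i j)`.  `T (Y i)` is
isometric on `Y i ≥ N i`, so it preserves dimension, norms and inner products of vectors of `Y i`
(polarization: `⟪x, y⟫ = (‖x + y‖² - ‖x‖² - ‖y‖²)/2`).  For `i ≠ j`: `f i j ∈ N i`, `f i j ∈ N j` and
`T (Y i) (f i j) = T (Y j) (f i j)` (trivial if `Y i = Y j`, second property of `T` if `f i j ∈ X`); so
`f' i j ∈ N' i`, `f' i j ∈ N' j`, and `⟪p' i - p' j, f' i j⟫ = ⟪p i, f i j⟫ - ⟪p j, f i j⟫`. -/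
def G_FOLD : Prop := ∀ (k : ℕ) (V : Type) [NormedAddCommGroup V] [InnerProductSpace ℝ V]
  [FiniteDimensional ℝ V] (N : Fin k → Submodule ℝ V) (p : Fin k → V) (f : Fin k → Fin k → V)
  (X : Submodule ℝ V) (Y : Fin k → Submodule ℝ V), IsConf k V N p f →
  (∀ i, X ≤ Y i) → (∀ i, N i ≤ Y i) → (∀ i, finrank ℝ (Y i) ≤ 6) →
  (∀ i j, i ≠ j → Y i = Y j ∨ f i j ∈ X) → Cf k (E 6)

/-- the output of `STAR` for the pair `i, j`: a third member `l` which meets `N i + N j` only in the line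
spanned by `f i j` -/
structure IsThird {k : ℕ} {V : Type} [NormedAddCommGroup V] [InnerProductSpace ℝ V]
    (N : Fin k → Submodule ℝ V) (f : Fin k → Fin k → V) (i j l : Fin k) : Prop where
  li : l ≠ i
  lj : l ≠ j
  cap : N l ⊓ (N i ⊔ N j) = Submodule.span ℝ {f i j}

/-- **STAR** (uses `G_FOLD`).

Proof.  Let `a = f i j`, `X = N i ⊔ N j`, `dim X = 3 + 3 - 1 = 5`, `N i ⊓ N j = span {a}`.
Suppose first that `2 ≤ dim (N l ⊓ X)` for all `l`.  Put `Y l = X ⊔ N l`, of dimension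
`5 + 3 - dim (X ⊓ N l) ≤ 6`.  Let `l ≠ m` and `f l m ∉ X`.  Then `N l` is spanned by `N l ⊓ X` and `f l m`
(dimension `≥ 2 + 1 = 3`), so `Y l = X ⊔ span {f l m}`; in the same way `Y m = X ⊔ span {f l m}`.
`G_FOLD` gives `Cf k (E 6)`, contradiction.  So there is `l` with `dim (N l ⊓ X) ≤ 1`; `l ≠ i, j` as
`N i ⊓ X = N i` has dimension 3.  `f l i ∈ N l ⊓ N i ≤ N l ⊓ X` and `f l j ∈ N l ⊓ X` are unit vectors, so
`N l ⊓ X = span {f l i} = span {f l j}`; this line lies in `N i` and in `N j`, so in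
`N i ⊓ N j = span {a}`, and is equal to it. -/
def G_STAR : Prop := ∀ (k : ℕ) (V : Type) [NormedAddCommGroup V] [InnerProductSpace ℝ V]
  [FiniteDimensional ℝ V] (N : Fin k → Submodule ℝ V) (p : Fin k → V) (f : Fin k → Fin k → V),
  IsConf k V N p f → ¬ Cf k (E 6) → ∀ i j, i ≠ j → finrank ℝ (N i ⊓ N j : Submodule ℝ V) ≤ 1 →
    ∃ l, IsThird N f i j l

/-- **MET** (heights).

Proof.  `a = f i j` is a unit vector.  `f i l ∈ N i ⊓ N l ≤ (N i ⊔ N j) ⊓ N l = span {a}` and it is a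
unit vector, so `f i l = ±a`; in the same way `f j l = ±a`.  So the three numbers `⟪p i, a⟫`, `⟪p j, a⟫`,
`⟪p l, a⟫` of `[-1, 1]` have mutual distances `≥ 1`; so they are `-1, 0, 1` in some order.  A unit
vector `p` with `⟪p, a⟫ = 1` (`= -1`) is `a` (`-a`) (`inner_eq_one_iff_of_norm_one`). -/
def G_MET : Prop := ∀ (k : ℕ) (V : Type) [NormedAddCommGroup V] [InnerProductSpace ℝ V]
  (N : Fin k → Submodule ℝ V) (p : Fin k → V) (f : Fin k → Fin k → V),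
  IsConf k V N p f → ∀ i j l, i ≠ j → IsThird N f i j l →
    ∃ u v w : Fin k, ({u, v, w} : Set (Fin k)) = {i, j, l} ∧ u ≠ v ∧ v ≠ w ∧ u ≠ w ∧
      p u = f i j ∧ p v = -f i j ∧ inner ℝ (p w) (f i j) = 0

/-- **IND** (a plane which does not contain the common line; pure linear algebra).

Proof.  Let `A = span {a}`.  The sum `N₁ ⊔ N₂ ⊔ N₃` has dimension 7 (`dim (N₁ ⊔ N₂) = 3 + 3 - 1 = 5`,
`dim (N₁ ⊔ N₂ ⊔ N₃) = 5 + 3 - 1 = 7`).  Suppose `D = M ⊓ N₁` has dimension `≥ 2`.  As `a ∉ M`,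
`D ⊓ A = ⊥`.  Consider `D ⊔ span {b₂} ⊔ span {b₃} ≤ M`: this sum is direct: if
`d + β b₂ + γ b₃ = 0` with `d ∈ D ≤ N₁`, then `γ b₃ ∈ N₃ ⊓ (N₁ ⊔ N₂) = A` and `γ b₃ ∈ M`, so
`γ b₃ = 0`, `γ = 0`; then `β b₂ = -d ∈ N₂ ⊓ N₁ = A` and in `M`, so `β = 0`, `d = 0`.  So
`dim M ≥ 2 + 1 + 1 = 4`, contradiction.  For `M ⊓ N₂`: by symmetry (`N₃ ⊓ (N₂ ⊔ N₁) = A`).
(The conclusion is only needed for `N₁` and `N₂`; by a relabelling it holds for any two.) -/
def G_IND : Prop := ∀ (V : Type) [NormedAddCommGroup V] [InnerProductSpace ℝ V]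
  [FiniteDimensional ℝ V] (a : V) (M N₁ N₂ N₃ : Submodule ℝ V), a ≠ 0 →
  finrank ℝ M = 3 → finrank ℝ N₁ = 3 → finrank ℝ N₂ = 3 → finrank ℝ N₃ = 3 →
  N₁ ⊓ N₂ = Submodule.span ℝ {a} → N₃ ⊓ (N₁ ⊔ N₂) = Submodule.span ℝ {a} → a ∉ M →
  M ⊓ N₁ ≠ ⊥ → M ⊓ N₂ ≠ ⊥ → M ⊓ N₃ ≠ ⊥ →
  finrank ℝ (M ⊓ N₁ : Submodule ℝ V) ≤ 1 ∧ finrank ℝ (M ⊓ N₂ : Submodule ℝ V) ≤ 1 ∧
    finrank ℝ (M ⊓ N₃ : Submodule ℝ V) ≤ 1

/-- **ALL** (the common line; uses `G_STAR`, `G_MET`, `G_IND`).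

Proof.  `a = f i j`.  Take `l` from `G_STAR` (so `N l ⊓ (N i ⊔ N j) = span {a}`; also
`N i ⊓ N j = span {a}`, since it is of dimension `≤ 1` and contains the unit vector `a`) and `u, v, w` from
`G_MET`.  Suppose `a ∉ N x`.  Then `x ≠ i, j, l` (they contain `a`).  `G_IND` (with `M = N x`,
`N₁, N₂, N₃ = N i, N j, N l`; the intersections are not `⊥` as they contain the unit vectors `f x i`
etc.) shows that `N x ⊓ N u` and `N x ⊓ N v` have dimension `≤ 1` (`u, v ∈ {i, j, l}`).  Apply `G_STAR`,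
`G_MET` to the pair `x, u` with `b = f x u`: two of the three members `x, u, l'` have `p = ±b`.  It is not
`u`: `p u = a` and `±b ∈ N x`.  So `p x = ±b = ±f x u`.  In the same way (`p v = -a`)
`p x = ±f x v`.  So `p x ∈ N u ⊓ N v`, and `N u ⊓ N v = span {a}` (for any two of `i, j, l`: they are
contained in the two given intersections), `p x = ±a` by the norms, and `a ∈ N x`. -/
def G_ALL : Prop := ∀ (k : ℕ) (V : Type) [NormedAddCommGroup V] [InnerProductSpace ℝ V]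
  [FiniteDimensional ℝ V] (N : Fin k → Submodule ℝ V) (p : Fin k → V) (f : Fin k → Fin k → V),
  IsConf k V N p f → ¬ Cf k (E 6) → ∀ i j, i ≠ j → finrank ℝ (N i ⊓ N j : Submodule ℝ V) ≤ 1 →
    ∀ x, f i j ∈ N x

/-- **LEM** (families with large intersections; pure linear algebra).

Proof.  If all `N x`, `x ∈ S`, are equal (or `S` is empty) the first alternative holds.  Otherwise let
`N 1 ≠ N 2`, `E = N 1 ⊓ N 2` (dimension 2: `≥ 2` by hypothesis, `≤ 2` as the two are different of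
dimension 3), `Y = N 1 ⊔ N 2` (dimension 4).  (a) `N x` which does not contain `E` is contained in `Y`:
`N x ⊓ N 1 ≠ N x ⊓ N 2` (otherwise this common intersection is contained in `E`, has dimension `≥ 2`, so it
is `E`), both have dimension `≥ 2`, so `N x = (N x ⊓ N 1) ⊔ (N x ⊓ N 2) ≤ Y` (dimension `≥ 3`).
(b) If all contain `E` the second alternative holds; let `N 3` not contain `E`; `N 3 ≤ Y` by (a).
If some `N 4` is not contained in `Y` then it contains `E` by (a), and `N 4 ⊓ Y` has dimension `≤ 2`, so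
it is `E`; `N 4 ⊓ N 3 ≤ N 4 ⊓ Y = E` has dimension `≥ 2`, so `E ≤ N 3`, contradiction.  So all are
contained in `Y`. -/
def G_LEM : Prop := ∀ (k : ℕ) (V : Type) [NormedAddCommGroup V] [InnerProductSpace ℝ V]
  [FiniteDimensional ℝ V] (N : Fin k → Submodule ℝ V) (S : Set (Fin k)),
  (∀ i, finrank ℝ (N i) = 3) →
  (∀ x ∈ S, ∀ y ∈ S, 2 ≤ finrank ℝ (N x ⊓ N y : Submodule ℝ V)) →
  (∃ Y : Submodule ℝ V, finrank ℝ Y ≤ 4 ∧ ∀ x ∈ S, N x ≤ Y) ∨
  ∃ D : Submodule ℝ V, finrank ℝ D = 2 ∧ ∀ x ∈ S, D ≤ N x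

/-- **ENDA** (no one-dimensional intersections; uses `G_FOLD`, `G_LEM`).

Proof.  `G_LEM` for `S = univ` (`N x ⊓ N x = N x` has dimension 3).  First alternative: `G_FOLD` with
`X = Y`, `Y i = Y` (dimension `≤ 4`).  Second: `G_FOLD` with `X = D`, `Y i = N i`: if `N i ≠ N j` then
`N i ⊓ N j` has dimension `≤ 2` and contains `D`, so it is `D` and contains `f i j`. -/
def G_ENDA : Prop := ∀ (k : ℕ) (V : Type) [NormedAddCommGroup V] [InnerProductSpace ℝ V]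
  [FiniteDimensional ℝ V] (N : Fin k → Submodule ℝ V) (p : Fin k → V) (f : Fin k → Fin k → V),
  IsConf k V N p f → (∀ i j, i ≠ j → 2 ≤ finrank ℝ (N i ⊓ N j : Submodule ℝ V)) → Cf k (E 6)

/-- **ENDB** (two exceptional members `u, v`; uses `G_FOLD`, `G_LEM`).

Proof.  `S = {x | x ≠ u ∧ x ≠ v}`, `w ∈ S`.  `G_LEM` for `S`.
(i) `Y` with `dim Y ≤ 4`, `N x ≤ Y` for `x ∈ S`.  `G_FOLD` with `X = Y` and `Y x = Y ⊔ N x` for all `x`: for
`x ∈ S` it is `Y`; for `x = u, v` its dimension is `≤ 4 + 3 - dim (Y ⊓ N x) ≤ 6`, as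
`a ∈ N w ⊓ N x ≤ Y ⊓ N x` is not `0`.  `f x y ∈ X` for `x ≠ y`: if `x ∈ S` or `y ∈ S` clear (`f x y ∈ N x`,
`f x y ∈ N y`); `f u v`, `f v u` are in `N u ⊓ N v = span {a} ≤ N w ≤ Y`.
(ii) `D` with `dim D = 2`, `D ≤ N x` for `x ∈ S`.  If `a ∉ D` then `N x = D ⊔ span {a}` for `x ∈ S`
(dimension 3), so all `N x`, `x ∈ S`, are contained in `Y := D ⊔ span {a}` and we are in case (i).
Let `a ∈ D`.  `Y₀ = D ⊔ N u ⊔ N v`: `dim (D ⊔ N u) ≤ 2 + 3 - 1 = 4`, `dim Y₀ ≤ 4 + 3 - 1 = 6` (`a` is in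
everything).  `G_FOLD` with `X = D`, `Y u = Y v = Y₀`, and for `x ∈ S`: `Y x = Y₀` if `N x ≤ Y₀`, else
`Y x = N x`.  Let `x ≠ y`, `Y x ≠ Y y`.  If `x, y ∈ S` then `N x ≠ N y` (otherwise `Y x = Y y`), so
`N x ⊓ N y` has dimension `≤ 2` and contains `D`: it is `D`, and `f x y ∈ D`.  If `x ∈ S`, `y = u` (or `v`)
then `Y x = N x`, `N x` is not contained in `Y₀`; if `f x y ∉ D` then `N x = D ⊔ span {f x y} ≤ D ⊔ N y ≤ Y₀`,
contradiction; the same for `f y x`.  If `x, y ∈ {u, v}` then `Y x = Y y`. -/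
def G_ENDB : Prop := ∀ (k : ℕ) (V : Type) [NormedAddCommGroup V] [InnerProductSpace ℝ V]
  [FiniteDimensional ℝ V] (N : Fin k → Submodule ℝ V) (p : Fin k → V) (f : Fin k → Fin k → V)
  (a : V) (u v w : Fin k), IsConf k V N p f → a ≠ 0 → (∀ x, a ∈ N x) → u ≠ v → w ≠ u → w ≠ v →
  N u ⊓ N v = Submodule.span ℝ {a} →
  (∀ x y, x ≠ u → x ≠ v → y ≠ u → y ≠ v → 2 ≤ finrank ℝ (N x ⊓ N y : Submodule ℝ V)) →
  Cf k (E 6)

/-- **RED** (the reduction; uses `G_STAR`, `G_MET`, `G_ALL`, `G_ENDA`, `G_ENDB`).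

Proof.  Suppose not `Cf k (E 6)`; take a configuration in `V`.  By `G_ENDA` there are `i ≠ j` with
`dim (N i ⊓ N j) ≤ 1`.  `a = f i j`; `l` from `G_STAR`, `u, v, w` from `G_MET` (`p u = a`, `p v = -a`), and
`a ∈ N x` for all `x` by `G_ALL`.  `N u ⊓ N v = span {a}`: `u ≠ v` are two of `i, j, l`, and
`N i ⊓ N j = span {a}`, `N l ⊓ N i, N l ⊓ N j ≤ N l ⊓ (N i ⊔ N j) = span {a}`.
Let `x, y` be different from `u, v`; claim `dim (N x ⊓ N y) ≥ 2`.  For `x = y` clear.  Otherwise suppose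
`≤ 1`.  `a ∈ N x ⊓ N y`, so `N x ⊓ N y = span {a}` and `f x y = ±a`.  `G_STAR`, `G_MET` for `x, y` with
third member `l'`: among `x, y, l'` two have `p = ±f x y = ±a`, so one of `x, y`, say `z`, has `p z = ±a`.
If `p z = a = p u` with `z ≠ u` then `⟪p z - p u, f z u⟫ = 0`, contradiction to `sep`; the same for
`p z = -a = p v`.  `G_ENDB` gives `Cf k (E 6)`. -/
def G_RED : Prop := ∀ (k : ℕ) (V : Type) [NormedAddCommGroup V] [InnerProductSpace ℝ V]
  [FiniteDimensional ℝ V], Cf k V → Cf k (E 6)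

end Pool.Agent.Helper80.KC
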