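import Pool.Agent.Helper69.KC.BOD
import Pool.Agent.Helper4.KC.A2C
import Pool.Agent.Helper35.KC.C2A
import Pool.Agent.Helper35.KC.MET
import Pool.Agent.Helper62.KC.LEM
import Pool.Agent.Helper77.KC.ISO
import Pool.Agent.Helper81.KC.IND
import Pool.Agent.Helper32.KC.ALL
import Pool.Agent.Helper96.KC.ENDA
import Pool.Agent.Helper14.KC.RED
import Pool.Agent.Helper70.KC.FOLD
import Pool.Agent.Helper2.KC.ENDB
import Pool.Agent.Helper44.KC.STAR
import Pool.Agent.Helper80.KC.Goals

/-!
# Project KC (MP_eaa1a7_co): assembly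
-/

set_option autoImplicit false

open Module

namespace Pool.Agent.Helper80.KC

theorem fold : G_FOLD := Pool.Agent.Helper70.KC.goalFOLD Pool.Agent.Helper77.KC.goalISO

theorem star' : G_STAR := Pool.Agent.Helper44.KC.goalSTAR fold

theorem red : G_RED :=
  Pool.Agent.Helper14.KC.goalRED star' Pool.Agent.Helper35.KC.goalMET
    (Pool.Agent.Helper32.KC.goalALL star' Pool.Agent.Helper35.KC.goalMET
      Pool.Agent.Helper81.KC.goalIND)
    (Pool.Agent.Helper96.KC.goalENDA fold Pool.Agent.Helper62.KC.goalLEM)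
    (Pool.Agent.Helper2.KC.goalENDB fold Pool.Agent.Helper62.KC.goalLEM)

theorem admissible_three : ∀ k j : ℕ, Admissible k j → Admissible k 3 := by
  intro k j h
  have h1 := Pool.Agent.Helper4.KC.goalA2C k j ((Pool.Agent.Helper69.KC.goalBOD k j).1 h)
  have h2 : Cf k (E 6) := red k (E (3 + j)) h1
  have h3 : Cf k (E (3 + 3)) := h2
  exact (Pool.Agent.Helper69.KC.goalBOD k 3).2 (Pool.Agent.Helper35.KC.goalC2A k 3 h3)

end Pool.Agent.Helper80.KC
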